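import Pool.Agent.H98.PW.Stmts

/-!
# PW: derivation rules
-/

set_option autoImplicit false

namespace Pool.PW

open Finset Filter MvPolynomial Pool.Agent.H98.ABCR

namespace DLGaux

variable {n : ℕ} {A : Type*} [CommRing A]

lemma EE_mul (J : Finset (Fin n)) (G : Fin n → MvPolynomial (Fin n) A) (i : Fin n)
    (F H : MvPolynomial (Fin n) A) :
    EE J G i (F * H) = F * EE J G i H + H * EE J G i F := by
  unfold EE
  simp only [Derivation.leibniz, smul_eq_mul, mul_sub, Finset.mul_sum]
  have h : ∑ k ∈ univ \ J, bk J G k * pderiv i (G k) * (F * pderiv k H + H * pderiv k F) =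
      ∑ k ∈ univ \ J, F * (bk J G k * pderiv i (G k) * pderiv k H) +
      ∑ k ∈ univ \ J, H * (bk J G k * pderiv i (G k) * pderiv k F) := by
    rw [← Finset.sum_add_distrib]
    exact Finset.sum_congr rfl fun k _ => by ring
  rw [h]
  ring

lemma EE_add (J : Finset (Fin n)) (G : Fin n → MvPolynomial (Fin n) A) (i : Fin n)
    (F H : MvPolynomial (Fin n) A) :
    EE J G i (F + H) = EE J G i F + EE J G i H := by
  unfold EE
  simp only [map_add]
  have h : ∑ k ∈ univ \ J, bk J G k * pderiv i (G k) * (pderiv k F + pderiv k H) =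
      ∑ k ∈ univ \ J, bk J G k * pderiv i (G k) * pderiv k F +
      ∑ k ∈ univ \ J, bk J G k * pderiv i (G k) * pderiv k H := by
    rw [← Finset.sum_add_distrib]
    exact Finset.sum_congr rfl fun k _ => by ring
  rw [h]
  ring

lemma EE_C (J : Finset (Fin n)) (G : Fin n → MvPolynomial (Fin n) A) (i : Fin n) (a : A) :
    EE J G i (C a) = 0 := by
  unfold EE
  simp

lemma EE_zero_of (J : Finset (Fin n)) (G : Fin n → MvPolynomial (Fin n) A) (i : Fin n)
    (k : Fin n) (hk : k ∉ J) (hv : ∀ l, l ∉ J → (G l).vars ⊆ insert l J) :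
    EE J G i (G k) = 0 := by
  unfold EE
  have hmem : k ∈ univ \ J := by simp [hk]
  have h0 : ∀ l ∈ univ \ J, l ≠ k → bk J G l * pderiv i (G l) * pderiv l (G k) = 0 := by
    intro l hl hlk
    have hlJ : l ∉ J := by
      rw [Finset.mem_sdiff] at hl
      exact hl.2
    have : l ∉ (G k).vars := by
      intro hmem'
      have := hv k hk hmem'
      rw [Finset.mem_insert] at this
      rcases this with h | h
      · exact hlk h
      · exact hlJ h
    rw [pderiv_eq_zero_of_notMem_vars this, mul_zero]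
  rw [Finset.sum_eq_single_of_mem k hmem h0]
  have hb : bb J G = pderiv k (G k) * bk J G k := by
    exact (Finset.mul_prod_erase (univ \ J) (fun l => pderiv l (G l)) hmem).symm
  rw [hb]
  ring

lemma EE_pow (J : Finset (Fin n)) (G : Fin n → MvPolynomial (Fin n) A) (i : Fin n)
    (F : MvPolynomial (Fin n) A) (e : ℕ) :
    F * EE J G i (F ^ e) = C (e : A) * F ^ e * EE J G i F := by
  induction e with
  | zero =>
    have : (F : MvPolynomial (Fin n) A) ^ 0 = C 1 := by simp
    rw [this, EE_C]
    simp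
  | succ e ih =>
    rw [pow_succ, EE_mul]
    have : F * (F ^ e * EE J G i F + F * EE J G i (F ^ e)) =
        F ^ e * F * EE J G i F + F * (F * EE J G i (F ^ e)) := by ring
    rw [this, ih]
    push_cast
    rw [map_add, map_one]
    ring

lemma EE_prod (J : Finset (Fin n)) (G : Fin n → MvPolynomial (Fin n) A) (i : Fin n)
    (e : Fin n → ℕ) (T : Finset (Fin n)) :
    (∏ k, (X k : MvPolynomial (Fin n) A)) * EE J G i (∏ k ∈ T, X k ^ e k) =
      (∏ k ∈ T, X k ^ e k) *
        ∑ k ∈ T, C (e k : A) * EE J G i (X k) * ∏ l ∈ univ.erase k, X l := by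
  classical
  induction T using Finset.induction_on with
  | empty =>
    have : (∏ k ∈ (∅ : Finset (Fin n)), (X k : MvPolynomial (Fin n) A) ^ e k) = C 1 := by simp
    rw [this, EE_C]
    simp
  | insert k T hk ih =>
    rw [Finset.prod_insert hk, Finset.sum_insert hk, EE_mul]
    have h1 : (∏ l, (X l : MvPolynomial (Fin n) A)) = X k * ∏ l ∈ univ.erase k, X l :=
      (Finset.mul_prod_erase univ (fun l => (X l : MvPolynomial (Fin n) A)) (mem_univ k)).symm
    have h2 := EE_pow J G i (X k) (e k)
    set P := ∏ l ∈ T, (X l : MvPolynomial (Fin n) A) ^ e l with hP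
    set R := ∏ l ∈ univ.erase k, (X l : MvPolynomial (Fin n) A) with hR
    have h3 : (∏ l, (X l : MvPolynomial (Fin n) A)) *
        (X k ^ e k * EE J G i P + P * EE J G i (X k ^ e k)) =
        X k ^ e k * ((∏ l, (X l : MvPolynomial (Fin n) A)) * EE J G i P) +
        P * R * (X k * EE J G i (X k ^ e k)) := by
      rw [h1]; ring
    rw [h3, ih, h2]
    ring

end DLGaux

/-- DLG. -/
theorem dlg_thm : S_DLG := by
  intro A _ n J G i
  refine ⟨fun F H => DLGaux.EE_mul J G i F H, fun F H => DLGaux.EE_add J G i F H,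
    fun k hk hv _ => DLGaux.EE_zero_of J G i k hk hv, ?_⟩
  intro e sd α s
  unfold tmp xi
  rw [DLGaux.EE_mul, DLGaux.EE_C, mul_zero, add_zero]
  have h := DLGaux.EE_prod J G i e (univ.filter (fun k => sd k = s))
  calc (∏ k, (X k : MvPolynomial (Fin n) A)) *
        (C (α s : A) * EE J G i (∏ k ∈ univ.filter (fun k => sd k = s), X k ^ e k)) =
      C (α s : A) * ((∏ k, (X k : MvPolynomial (Fin n) A)) *
        EE J G i (∏ k ∈ univ.filter (fun k => sd k = s), X k ^ e k)) := by ring
    _ = _ := by rw [h]; ring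

end Pool.PW
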